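import Mathlib

/-!
# Package LinK-K0: `k` commuting affine bijections with inputs, definitions (pure algebra)
-/

set_option autoImplicit false

namespace Pool.Agent.LinK

/-- the images of the points of `D` under the iterates of the first `l` maps -/
def iterSets {α : Type*} (D : Set α) (f : ℕ → α → α) : ℕ → Set α
  | 0 => D
  | l + 1 => {z | ∃ i : ℕ, ∃ u ∈ iterSets D f l, z = (f l)^[i] u}

variable {V : Type*} [AddCommGroup V]

/-- the differences of inputs and the commutators of the maps `f j + b₀` -/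
def gens (k : ℕ) (f : ℕ → V → V) (R : Set V) (b₀ : V) : Set V :=
  {z | ∃ b ∈ R, ∃ b' ∈ R, z = b - b'} ∪
    {z | ∃ i, i < k ∧ ∃ j, j < k ∧ z = (f i (f j 0 + b₀) + b₀) - (f j (f i 0 + b₀) + b₀)}

/-- the subgroup of the translations -/
def WK (k : ℕ) (f : ℕ → V → V) (A : ℕ → V →+ V) (R : Set V) (b₀ : V) : AddSubgroup V :=
  AddSubgroup.closure (iterSets (gens k f R b₀) (fun j => A j) k)

/-- the points `g_(l-1)^(i_(l-1)) ⋯ g_0^(i_0) u`, `u ∈ x + W`, `g_j = f j + b₀` -/
def OK (k : ℕ) (f : ℕ → V → V) (A : ℕ → V →+ V) (R : Set V) (b₀ x : V) (l : ℕ) : Set V :=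
  iterSets {u | u - x ∈ WK k f A R b₀} (fun j u => f j u + b₀) l

end Pool.Agent.LinK
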