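import Pool.Agent.LinK.K0

set_option autoImplicit false

namespace Pool.Agent.LinK

/-- the orbit of `x` modulo `W` under the first `l` maps -/
abbrev K1O {V : Type*} [AddCommGroup V] (g : ℕ → V → V) (W : AddSubgroup V) (x : V) (l : ℕ) : Set V :=
  iterSets {u | u - x ∈ W} g l

section K1

variable {V : Type*} [AddCommGroup V]

theorem K1_iter {f : V → V} {A : V →+ V} (hA : ∀ u w, f u - f w = A (u - w)) (s : ℕ) (u w : V) :
    f^[s] u - f^[s] w = A^[s] (u - w) := by
  induction s with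
  | zero => rfl
  | succ s ih =>
    rw [Function.iterate_succ_apply', Function.iterate_succ_apply', Function.iterate_succ_apply',
      ← ih, ← hA]

theorem K1_period [Finite V] {f : V → V} (hf : Function.Injective f) :
    ∃ M, 0 < M ∧ ∀ u, f^[M] u = u := by
  classical
  have := Fintype.ofFinite V
  let e : Equiv.Perm V := Equiv.ofBijective f (Finite.injective_iff_bijective.1 hf)
  refine ⟨orderOf e, orderOf_pos e, fun u => ?_⟩
  have h := Equiv.Perm.iterate_eq_pow e (orderOf e)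
  rw [pow_orderOf_eq_one] at h
  exact congrFun h u

theorem K1_surjOn [Finite V] {A : V →+ V} (hA : Function.Injective A) {W : AddSubgroup V}
    (hW : ∀ w ∈ W, A w ∈ W) (i : ℕ) {w : V} (hw : w ∈ W) : ∃ w' ∈ W, A^[i] w' = w := by
  obtain ⟨M, hM, h⟩ := K1_period hA
  have hs : ∀ s, ∀ z ∈ W, A^[s] z ∈ W := by
    intro s
    induction s with
    | zero => exact fun z hz => hz
    | succ s ih =>
      intro z hz
      rw [Function.iterate_succ_apply']
      exact hW _ (ih z hz)
  have h' : ∀ q, ∀ z, A^[M * q] z = z := by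
    intro q
    induction q with
    | zero => exact fun z => rfl
    | succ q ih => intro z; rw [Nat.mul_succ, Function.iterate_add_apply, h, ih]
  refine ⟨A^[M * i - i] w, hs _ w hw, ?_⟩
  rw [← Function.iterate_add_apply, Nat.add_sub_cancel' (Nat.le_mul_of_pos_left i hM), h']

end K1

section K1main

variable {V : Type*} [AddCommGroup V] [Finite V] {k : ℕ} {g : ℕ → V → V} {A : ℕ → V →+ V}
  {W : AddSubgroup V}

theorem K1_injA (hg : ∀ j < k, Function.Injective (g j))
    (hA : ∀ j < k, ∀ u w, g j u - g j w = A j (u - w)) (j : ℕ) (hj : j < k) :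
    Function.Injective (A j) := by
  intro u w h
  have h3 := hA j hj u w
  rw [map_sub, h, sub_self] at h3
  exact hg j hj (sub_eq_zero.1 h3)

theorem K1_add (hg : ∀ j < k, Function.Injective (g j))
    (hA : ∀ j < k, ∀ u w, g j u - g j w = A j (u - w)) (hW : ∀ j < k, ∀ w ∈ W, A j w ∈ W)
    (x : V) : ∀ l ≤ k, ∀ y ∈ K1O g W x l, ∀ w ∈ W, y + w ∈ K1O g W x l := by
  intro l
  induction l with
  | zero =>
    intro _ y hy w hw
    show y + w - x ∈ W
    have : y + w - x = (y - x) + w := by abel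
    rw [this]
    exact W.add_mem hy hw
  | succ l ih =>
    rintro hl y ⟨i, u, hu, rfl⟩ w hw
    obtain ⟨w', hw', h⟩ := K1_surjOn (K1_injA hg hA l hl) (hW l hl) i hw
    refine ⟨i, u + w', ih (by omega) u hu w' hw', ?_⟩
    have h2 := K1_iter (hA l hl) i (u + w') u
    rw [add_sub_cancel_left, h] at h2
    rw [← h2]
    abel

theorem K1_comm (hg : ∀ j < k, Function.Injective (g j))
    (hA : ∀ j < k, ∀ u w, g j u - g j w = A j (u - w)) (hW : ∀ j < k, ∀ w ∈ W, A j w ∈ W)
    (hc : ∀ i < k, ∀ j < k, ∀ u, g i (g j u) - g j (g i u) ∈ W) {j l : ℕ} (hj : j < k)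
    (hl : l < k) (i : ℕ) (u : V) : g j ((g l)^[i] u) - (g l)^[i] (g j u) ∈ W := by
  induction i with
  | zero =>
    rw [Function.iterate_zero, id, id, sub_self]
    exact W.zero_mem
  | succ i ih =>
    rw [Function.iterate_succ_apply', Function.iterate_succ_apply']
    have h1 := hc j hj l hl ((g l)^[i] u)
    have h2 : g l (g j ((g l)^[i] u)) - g l ((g l)^[i] (g j u)) ∈ W := by
      rw [hA l hl]
      exact hW l hl _ ih
    have := W.add_mem h1 h2
    rwa [sub_add_sub_cancel] at this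

theorem K1_map (hg : ∀ j < k, Function.Injective (g j))
    (hA : ∀ j < k, ∀ u w, g j u - g j w = A j (u - w)) (hW : ∀ j < k, ∀ w ∈ W, A j w ∈ W)
    (hc : ∀ i < k, ∀ j < k, ∀ u, g i (g j u) - g j (g i u) ∈ W) {j : ℕ} (hj : j < k) (x : V) :
    ∀ l ≤ k, ∀ y ∈ K1O g W x l, g j y ∈ K1O g W (g j x) l := by
  intro l
  induction l with
  | zero =>
    intro _ y hy
    show g j y - g j x ∈ W
    rw [hA j hj]
    exact hW j hj _ hy
  | succ l ih =>
    rintro hl y ⟨i, u, hu, rfl⟩
    have h1 : (g l)^[i] (g j u) ∈ K1O g W (g j x) (l + 1) := ⟨i, g j u, ih (by omega) u hu, rfl⟩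
    have h2 := K1_add hg hA hW (g j x) (l + 1) hl _ h1 _ (K1_comm hg hA hW hc hj hl i u)
    rwa [add_sub_cancel] at h2

theorem K1_map_iter (hg : ∀ j < k, Function.Injective (g j))
    (hA : ∀ j < k, ∀ u w, g j u - g j w = A j (u - w)) (hW : ∀ j < k, ∀ w ∈ W, A j w ∈ W)
    (hc : ∀ i < k, ∀ j < k, ∀ u, g i (g j u) - g j (g i u) ∈ W) {j : ℕ} (hj : j < k) (x : V)
    {l : ℕ} (hl : l ≤ k) (i : ℕ) {y : V} (hy : y ∈ K1O g W x l) :
    (g j)^[i] y ∈ K1O g W ((g j)^[i] x) l := by
  induction i with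
  | zero => exact hy
  | succ i ih =>
    rw [Function.iterate_succ_apply', Function.iterate_succ_apply']
    exact K1_map hg hA hW hc hj _ l hl _ ih

theorem K1_inv (hg : ∀ j < k, Function.Injective (g j))
    (hA : ∀ j < k, ∀ u w, g j u - g j w = A j (u - w)) (hW : ∀ j < k, ∀ w ∈ W, A j w ∈ W)
    (hc : ∀ i < k, ∀ j < k, ∀ u, g i (g j u) - g j (g i u) ∈ W) {j : ℕ} (hj : j < k) (x : V)
    {l : ℕ} (hl : l ≤ k) (i : ℕ) {y : V} (hy : y ∈ K1O g W ((g j)^[i] x) l) :
    ∃ z ∈ K1O g W x l, y = (g j)^[i] z := by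
  obtain ⟨M, hM, h⟩ := K1_period (hg j hj)
  have h' : ∀ q, ∀ z, (g j)^[M * q] z = z := by
    intro q
    induction q with
    | zero => exact fun z => rfl
    | succ q ih => intro z; rw [Nat.mul_succ, Function.iterate_add_apply, h, ih]
  have hle : i ≤ M * i := Nat.le_mul_of_pos_left i hM
  refine ⟨(g j)^[M * i - i] y, ?_, ?_⟩
  · have h2 := K1_map_iter hg hA hW hc hj _ hl (M * i - i) hy
    rwa [← Function.iterate_add_apply, Nat.sub_add_cancel hle, h'] at h2
  · rw [← Function.iterate_add_apply, Nat.add_sub_cancel' hle, h']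

theorem K1_refl (g : ℕ → V → V) (W : AddSubgroup V) (x : V) (l : ℕ) : x ∈ K1O g W x l := by
  induction l with
  | zero =>
    show x - x ∈ W
    rw [sub_self]
    exact W.zero_mem
  | succ l ih => exact ⟨0, x, ih, rfl⟩

theorem K1_mono (g : ℕ → V → V) (W : AddSubgroup V) (x : V) (l : ℕ) {y : V}
    (hy : y ∈ K1O g W x l) : y ∈ K1O g W x (l + 1) := ⟨0, y, hy, rfl⟩

theorem K1_mono_le (g : ℕ → V → V) (W : AddSubgroup V) (x : V) {l l' : ℕ} (h : l ≤ l') {y : V}
    (hy : y ∈ K1O g W x l) : y ∈ K1O g W x l' := by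
  induction l', h using Nat.le_induction with
  | base => exact hy
  | succ n _ ih => exact K1_mono g W x n ih

theorem K1_trans (hg : ∀ j < k, Function.Injective (g j))
    (hA : ∀ j < k, ∀ u w, g j u - g j w = A j (u - w)) (hW : ∀ j < k, ∀ w ∈ W, A j w ∈ W)
    (hc : ∀ i < k, ∀ j < k, ∀ u, g i (g j u) - g j (g i u) ∈ W) :
    ∀ l ≤ k, ∀ x y z, y ∈ K1O g W x l → z ∈ K1O g W y l → z ∈ K1O g W x l := by
  intro l
  induction l with
  | zero =>
    intro _ x y z hy hz
    have := W.add_mem hz hy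
    rwa [sub_add_sub_cancel] at this
  | succ l ih =>
    rintro hl x y z ⟨i, u, hu, rfl⟩ ⟨j, v, hv, rfl⟩
    obtain ⟨v', hv', rfl⟩ := K1_inv hg hA hW hc hl u (by omega) i hv
    exact ⟨j + i, v', ih (by omega) x u v' hu hv', (Function.iterate_add_apply _ _ _ _).symm⟩

theorem K1_symm (hg : ∀ j < k, Function.Injective (g j))
    (hA : ∀ j < k, ∀ u w, g j u - g j w = A j (u - w)) (hW : ∀ j < k, ∀ w ∈ W, A j w ∈ W)
    (hc : ∀ i < k, ∀ j < k, ∀ u, g i (g j u) - g j (g i u) ∈ W) :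
    ∀ l ≤ k, ∀ x y, y ∈ K1O g W x l → x ∈ K1O g W y l := by
  intro l
  induction l with
  | zero =>
    intro _ x y hy
    have := W.neg_mem hy
    rwa [neg_sub] at this
  | succ l ih =>
    rintro hl x y ⟨i, u, hu, rfl⟩
    obtain ⟨M, hM, h⟩ := K1_period (hg l hl)
    have h' : ∀ q, ∀ z, (g l)^[M * q] z = z := by
      intro q
      induction q with
      | zero => exact fun z => rfl
      | succ q ih => intro z; rw [Nat.mul_succ, Function.iterate_add_apply, h, ih]
    have hle : i ≤ M * i := Nat.le_mul_of_pos_left i hM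
    have h1 : u ∈ K1O g W ((g l)^[i] u) (l + 1) := by
      refine ⟨M * i - i, _, K1_refl g W _ l, ?_⟩
      rw [← Function.iterate_add_apply, Nat.sub_add_cancel hle, h']
    exact K1_trans hg hA hW hc (l + 1) hl _ _ _ h1 (K1_mono g W u l (ih (by omega) x u hu))

/-- the number of points of the next level -/
theorem K1_card (hg : ∀ j < k, Function.Injective (g j))
    (hA : ∀ j < k, ∀ u w, g j u - g j w = A j (u - w)) (hW : ∀ j < k, ∀ w ∈ W, A j w ∈ W)
    (hc : ∀ i < k, ∀ j < k, ∀ u, g i (g j u) - g j (g i u) ∈ W) (x : V) {l : ℕ} (hl : l < k)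
    {P : ℕ} (hP : 1 ≤ P) (h1 : (g l)^[P] x ∈ K1O g W x l)
    (h2 : ∀ s, 1 ≤ s → s < P → (g l)^[s] x ∉ K1O g W x l) :
    Nat.card (K1O g W x (l + 1)) = P * Nat.card (K1O g W x l) := by
  classical
  have hl' : l ≤ k := hl.le
  have hper : ∀ q, ∀ u ∈ K1O g W x l, (g l)^[P * q] u ∈ K1O g W x l := by
    intro q
    induction q with
    | zero => exact fun u hu => hu
    | succ q ih =>
      intro u hu
      rw [Nat.mul_succ, Function.iterate_add_apply]
      exact ih _ (K1_trans hg hA hW hc l hl' _ _ _ h1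
        (K1_map_iter hg hA hW hc hl x hl' P hu))
  have hlt : ∀ s s', s < s' → s' < P → ∀ u ∈ K1O g W x l, ∀ u' ∈ K1O g W x l,
      (g l)^[s] u ≠ (g l)^[s'] u' := by
    intro s s' hs hs' u hu u' hu' h3
    obtain ⟨d, rfl⟩ := Nat.exists_eq_add_of_lt hs
    rw [show s + d + 1 = s + (d + 1) by omega, Function.iterate_add_apply] at h3
    have h4 : u = (g l)^[d + 1] u' := ((hg l hl).iterate s) h3
    refine h2 (d + 1) (by omega) (by omega) ?_
    have h5 := K1_map_iter hg hA hW hc hl x hl' (d + 1) hu'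
    rw [← h4] at h5
    exact K1_trans hg hA hW hc l hl' _ _ _ hu (K1_symm hg hA hW hc l hl' _ _ h5)
  let φ : Fin P × K1O g W x l → K1O g W x (l + 1) :=
    fun p => ⟨(g l)^[(p.1 : ℕ)] p.2, p.1, p.2, p.2.2, rfl⟩
  have hφ : Function.Bijective φ := by
    constructor
    · rintro ⟨s, u⟩ ⟨s', u'⟩ h
      have h3 : (g l)^[(s : ℕ)] u = (g l)^[(s' : ℕ)] u' := congrArg Subtype.val h
      have h4 : s = s' := by
        rcases lt_trichotomy (s : ℕ) s' with h5 | h5 | h5
        · exact absurd h3 (hlt _ _ h5 s'.2 _ u.2 _ u'.2)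
        · exact Fin.ext h5
        · exact absurd h3.symm (hlt _ _ h5 s.2 _ u'.2 _ u.2)
      subst h4
      rw [Subtype.ext (((hg l hl).iterate s) h3)]
    · rintro ⟨y, i, u, hu, rfl⟩
      refine ⟨(⟨i % P, Nat.mod_lt _ hP⟩, ⟨_, hper (i / P) u hu⟩), Subtype.ext ?_⟩
      show (g l)^[i % P] ((g l)^[P * (i / P)] u) = (g l)^[i] u
      rw [← Function.iterate_add_apply, Nat.mod_add_div]
  rw [← Nat.card_congr (Equiv.ofBijective φ hφ), Nat.card_prod, Nat.card_fin]

/-- such a number exists -/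
theorem K1_exists {l : ℕ} (x : V) (hg : Function.Injective (g l)) (W : AddSubgroup V) :
    ∃ P, 1 ≤ P ∧ P ≤ Nat.card V ∧ (g l)^[P] x ∈ K1O g W x l := by
  classical
  have := Fintype.ofFinite V
  obtain ⟨n, hn, h⟩ := hg.mem_periodicPts x
  refine ⟨Function.minimalPeriod (g l) x, Function.IsPeriodicPt.minimalPeriod_pos hn h, ?_, ?_⟩
  · rw [Nat.card_eq_fintype_card]
    exact Function.minimalPeriod_le_card
  · have h4 : (g l)^[Function.minimalPeriod (g l) x] x = x :=
      Function.isPeriodicPt_minimalPeriod (g l) x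
    rw [h4]
    exact K1_refl g W x l

end K1main

section WK

variable {V : Type*} [AddCommGroup V] {k : ℕ} {f : ℕ → V → V} {A : ℕ → V →+ V} {R : Set V} {b₀ : V}

theorem K1_iterSets_base {α : Type*} (D : Set α) (f : ℕ → α → α) (l : ℕ) {z : α} (hz : z ∈ D) :
    z ∈ iterSets D f l := by
  induction l with
  | zero => exact hz
  | succ l ih => exact ⟨0, z, ih, rfl⟩

theorem K1_iterSets_stable {D : Set V} (hc : ∀ i, i < k → ∀ j, j < k → ∀ u, A i (A j u) = A j (A i u)) :
    ∀ l ≤ k, ∀ j < l, ∀ z ∈ iterSets D (fun j => A j) l, A j z ∈ iterSets D (fun j => A j) l := by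
  intro l
  induction l with
  | zero => exact fun _ j hj => absurd hj (Nat.not_lt_zero j)
  | succ l ih =>
    rintro hl j hj z ⟨i, u, hu, rfl⟩
    rcases Nat.lt_succ_iff_lt_or_eq.1 hj with h | rfl
    · have h1 : ∀ i : ℕ, ∀ v, A j ((A l)^[i] v) = (A l)^[i] (A j v) := by
        intro i
        induction i with
        | zero => exact fun v => rfl
        | succ i ih =>
          intro v
          rw [Function.iterate_succ_apply', Function.iterate_succ_apply', ← ih,
            hc j (by omega) l hl]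
      exact ⟨i, _, ih (by omega) j h u hu, h1 i u⟩
    · exact ⟨i + 1, u, hu, (Function.iterate_succ_apply' _ _ _).symm⟩

theorem K1_WK_stable (hc : ∀ i, i < k → ∀ j, j < k → ∀ u, A i (A j u) = A j (A i u)) :
    ∀ j < k, ∀ w ∈ WK k f A R b₀, A j w ∈ WK k f A R b₀ := by
  intro j hj
  have h1 : WK k f A R b₀ ≤ (WK k f A R b₀).comap (A j) := by
    unfold WK
    rw [AddSubgroup.closure_le]
    intro z hz
    exact AddSubgroup.subset_closure (K1_iterSets_stable hc k le_rfl j hj z hz)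
  exact fun w hw => h1 hw

theorem K1_gens_WK {z : V} (hz : z ∈ gens k f R b₀) : z ∈ WK k f A R b₀ :=
  AddSubgroup.subset_closure (K1_iterSets_base _ _ k hz)

theorem K1_WK_comm (hA : ∀ j, j < k → ∀ u w, f j u - f j w = A j (u - w))
    (hc : ∀ i, i < k → ∀ j, j < k → ∀ u, A i (A j u) = A j (A i u)) :
    ∀ i < k, ∀ j < k, ∀ u, (f i (f j u + b₀) + b₀) - (f j (f i u + b₀) + b₀) ∈ WK k f A R b₀ := by
  intro i hi j hj u
  have h1 : ∀ i, i < k → ∀ j, j < k → f i (f j u + b₀) = f i (f j 0 + b₀) + A i (A j u) := by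
    intro i hi j hj
    have h2 := hA i hi (f j u + b₀) (f j 0 + b₀)
    rw [add_sub_add_right_eq_sub, hA j hj, sub_zero] at h2
    rw [← h2]
    abel
  have h3 : (f i (f j u + b₀) + b₀) - (f j (f i u + b₀) + b₀) =
      (f i (f j 0 + b₀) + b₀) - (f j (f i 0 + b₀) + b₀) := by
    rw [h1 i hi j hj, h1 j hj i hi, hc i hi j hj]
    abel
  rw [h3]
  exact K1_gens_WK (Or.inr ⟨i, hi, j, hj, rfl⟩)

end WK

end Pool.Agent.LinK
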