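import Pool.Agent.LinK.K1

/-!
# Package LinK-K1a: reachability under `k` commuting affine bijections with inputs (pure algebra)

*Proof.* (→) the level `k` is stable under the translations by `W` and under every `g_j` (file K1).
(←) the steps are bijections of a finite set, so reachability is symmetric; `t_(j,b) t_(j,b')⁻¹` is
the translation by `b - b'`, `g_i g_j (g_j g_i)⁻¹` the translation by the constant, conjugation with
`g_j` turns the translation by `w` into the one by `A j w`.
-/

set_option autoImplicit false

namespace Pool.Agent.LinK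

variable {V : Type*} [AddCommGroup V]

/-- one step -/
def K1step (k : ℕ) (f : ℕ → V → V) (R : Set V) (u w : V) : Prop :=
  ∃ j, j < k ∧ ∃ b ∈ R, w = f j u + b

theorem K1step_iter {k : ℕ} {f : ℕ → V → V} {R : Set V} {j : ℕ} (hj : j < k) {b : V} (hb : b ∈ R)
    (n : ℕ) (u : V) : Relation.ReflTransGen (K1step k f R) u ((fun u => f j u + b)^[n] u) := by
  induction n with
  | zero => exact Relation.ReflTransGen.refl
  | succ n ih =>
    rw [Function.iterate_succ_apply']
    exact ih.tail ⟨j, hj, b, hb, rfl⟩

theorem K1step_symm [Finite V] {k : ℕ} {f : ℕ → V → V} {R : Set V}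
    (hf : ∀ j, j < k → Function.Injective (f j)) {u w : V}
    (h : Relation.ReflTransGen (K1step k f R) u w) : Relation.ReflTransGen (K1step k f R) w u := by
  induction h with
  | refl => exact Relation.ReflTransGen.refl
  | @tail v w _ hs ih =>
    refine Relation.ReflTransGen.trans ?_ ih
    obtain ⟨j, hj, b, hb, rfl⟩ := hs
    have hi : Function.Injective (fun u => f j u + b) := fun _ _ h => hf j hj (add_right_cancel h)
    obtain ⟨n, hn, hper⟩ := hi.mem_periodicPts v
    obtain ⟨q, rfl⟩ : ∃ q, n = q + 1 := ⟨n - 1, by omega⟩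
    have h1 : (fun u => f j u + b)^[q] (f j v + b) = v := by
      have h2 : (fun u => f j u + b)^[q + 1] v = v := hper
      rwa [Function.iterate_succ_apply] at h2
    have h3 := K1step_iter (f := f) hj hb q (f j v + b)
    rwa [h1] at h3

theorem reach_iffK [Finite V] {k : ℕ} (hk : 1 ≤ k) {f : ℕ → V → V} {A : ℕ → V →+ V} {R : Set V}
    {b₀ : V} (hf : ∀ j, j < k → Function.Injective (f j))
    (hA : ∀ j, j < k → ∀ u w, f j u - f j w = A j (u - w))
    (hc : ∀ i, i < k → ∀ j, j < k → ∀ u, A i (A j u) = A j (A i u)) (hb : b₀ ∈ R) (x y : V) :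
    Relation.ReflTransGen (fun u w => ∃ j, j < k ∧ ∃ b ∈ R, w = f j u + b) x y ↔
      y ∈ OK k f A R b₀ x k := by
  have hg : ∀ j < k, Function.Injective ((fun j u => f j u + b₀ : ℕ → V → V) j) :=
    fun j hj _ _ h => hf j hj (add_right_cancel h)
  have hA' : ∀ j < k, ∀ u w, (fun j u => f j u + b₀ : ℕ → V → V) j u -
      (fun j u => f j u + b₀ : ℕ → V → V) j w = A j (u - w) := fun j hj u w => by
    show f j u + b₀ - (f j w + b₀) = A j (u - w)
    rw [add_sub_add_right_eq_sub]
    exact hA j hj u w
  have hW := K1_WK_stable (f := f) (R := R) (b₀ := b₀) hc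
  have hcm := K1_WK_comm (R := R) (b₀ := b₀) hA hc
  constructor
  · intro h
    induction h with
    | refl => exact K1_refl _ _ x k
    | @tail v w _ hs ih =>
      obtain ⟨j, hj, b, hbR, rfl⟩ := hs
      have h1 : f j v + b₀ ∈ K1O (fun j u => f j u + b₀) (WK k f A R b₀) v k :=
        K1_mono_le _ _ _ (show j + 1 ≤ k from hj) ⟨1, v, K1_refl _ _ v j, rfl⟩
      have h2 := K1_trans hg hA' hW hcm k le_rfl x v _ ih h1
      have h3 := K1_add hg hA' hW x k le_rfl _ h2 (b - b₀)
        (K1_gens_WK (Or.inl ⟨b, hbR, b₀, hb, rfl⟩))
      rwa [add_add_sub_cancel] at h3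
  · have hsurj : ∀ j < k, ∀ b : V, Function.Surjective (fun u => f j u + b) := fun j hj b =>
      Finite.surjective_of_injective fun _ _ h => hf j hj (add_right_cancel h)
    have hstep : ∀ j < k, ∀ b ∈ R, ∀ u, Relation.ReflTransGen (K1step k f R) u (f j u + b) :=
      fun j hj b hb u => Relation.ReflTransGen.single ⟨j, hj, b, hb, rfl⟩
    have hgen : ∀ c ∈ gens k f R b₀, ∀ z, Relation.ReflTransGen (K1step k f R) z (z + c) := by
      rintro c (⟨b, hbR, b', hbR', rfl⟩ | ⟨i, hi, j, hj, rfl⟩) z
      · obtain ⟨u, hu⟩ := hsurj 0 hk b' z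
        simp only at hu
        have h1 := hstep 0 hk b' hbR' u
        rw [hu] at h1
        have h2 := hstep 0 hk b hbR u
        have e : f 0 u + b = z + (b - b') := by
          rw [← hu]
          abel
        rw [e] at h2
        exact (K1step_symm hf h1).trans h2
      · obtain ⟨v, hv⟩ := hsurj j hj b₀ z
        obtain ⟨u, hu⟩ := hsurj i hi b₀ v
        simp only at hu hv
        have h1 := (hstep i hi b₀ hb u).trans (hstep j hj b₀ hb _)
        have h2 := (hstep j hj b₀ hb u).trans (hstep i hi b₀ hb _)
        have h3 : ∀ i, i < k → ∀ j, j < k → f i (f j u + b₀) = f i (f j 0 + b₀) + A i (A j u) := by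
          intro i hi j hj
          have h2 := hA i hi (f j u + b₀) (f j 0 + b₀)
          rw [add_sub_add_right_eq_sub, hA j hj, sub_zero] at h2
          rw [← h2]
          abel
        rw [hu, hv] at h1
        have e : f i (f j u + b₀) + b₀ =
            z + ((f i (f j 0 + b₀) + b₀) - (f j (f i 0 + b₀) + b₀)) := by
          rw [← hv, ← hu, h3 i hi j hj, h3 j hj i hi, hc i hi j hj]
          abel
        rw [e] at h2
        exact (K1step_symm hf h1).trans h2
    have hAc : ∀ j < k, ∀ i : ℕ, ∀ c, (∀ z, Relation.ReflTransGen (K1step k f R) z (z + c)) →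
        ∀ z, Relation.ReflTransGen (K1step k f R) z (z + (A j)^[i] c) := by
      intro j hj i c hc
      induction i with
      | zero => exact hc
      | succ i ih =>
        intro z
        obtain ⟨u, hu⟩ := hsurj j hj b₀ z
        simp only at hu
        have h1 := hstep j hj b₀ hb u
        rw [hu] at h1
        have h2 := hstep j hj b₀ hb (u + (A j)^[i] c)
        have h3 := hA j hj (u + (A j)^[i] c) u
        rw [add_sub_cancel_left] at h3
        have e : f j (u + (A j)^[i] c) + b₀ = z + (A j)^[i + 1] c := by
          rw [Function.iterate_succ_apply', ← h3, ← hu]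
          abel
        rw [e] at h2
        exact ((K1step_symm hf h1).trans (ih u)).trans h2
    have hlev : ∀ l ≤ k, ∀ c ∈ iterSets (gens k f R b₀) (fun j => A j) l,
        ∀ z, Relation.ReflTransGen (K1step k f R) z (z + c) := by
      intro l
      induction l with
      | zero => exact fun _ c hc => hgen c hc
      | succ l ih =>
        rintro hl c ⟨i, u, hu, rfl⟩
        exact hAc l hl i u (ih (by omega) u hu)
    have key : ∀ c ∈ WK k f A R b₀, ∀ z, Relation.ReflTransGen (K1step k f R) z (z + c) := by
      intro c hc
      unfold WK at hc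
      induction hc using AddSubgroup.closure_induction with
      | mem c hc => exact hlev k le_rfl c hc
      | zero =>
        intro z
        rw [add_zero]
      | add a b _ _ iha ihb =>
        intro z
        have h1 := (iha z).trans (ihb (z + a))
        rwa [add_assoc] at h1
      | neg a _ iha =>
        intro z
        have h1 := iha (z + -a)
        rw [neg_add_cancel_right] at h1
        exact K1step_symm hf h1
    have hO : ∀ l ≤ k, ∀ y ∈ K1O (fun j u => f j u + b₀) (WK k f A R b₀) x l,
        Relation.ReflTransGen (K1step k f R) x y := by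
      intro l
      induction l with
      | zero =>
        intro _ y hy
        have h1 := key _ hy x
        rwa [add_sub_cancel] at h1
      | succ l ih =>
        rintro hl y ⟨i, u, hu, rfl⟩
        exact (ih (by omega) u hu).trans (K1step_iter hl hb i u)
    exact hO k le_rfl y

end Pool.Agent.LinK
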