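import Pool.Agent.LinK.K1

/-!
# Package LinK-K1b: the number of reachable points, `k` commuting affine bijections (pure algebra)

*Proof.* The levels `O_l` are the classes of an equivalence relation which is stable under every
`g_j` (file K1); the sets `g_l^s O_l` are classes: equal or disjoint, and the first one that meets
`O_l` again is the one with `s = p`.
-/

set_option autoImplicit false

namespace Pool.Agent.LinK

variable {V : Type*} [AddCommGroup V]

theorem card_OK_succ [Finite V] {k : ℕ} {f : ℕ → V → V} {A : ℕ → V →+ V} {R : Set V}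
    {b₀ : V} (hf : ∀ j, j < k → Function.Injective (f j))
    (hA : ∀ j, j < k → ∀ u w, f j u - f j w = A j (u - w))
    (hc : ∀ i, i < k → ∀ j, j < k → ∀ u, A i (A j u) = A j (A i u)) (x : V) {l p : ℕ}
    (hl : l < k) (hp : 1 ≤ p) (h1 : (fun u => f l u + b₀)^[p] x ∈ OK k f A R b₀ x l)
    (h2 : ∀ s, 1 ≤ s → s < p → (fun u => f l u + b₀)^[s] x ∉ OK k f A R b₀ x l) :
    Nat.card (OK k f A R b₀ x (l + 1)) = p * Nat.card (OK k f A R b₀ x l) :=
  K1_card (g := fun j u => f j u + b₀) (A := A) (W := WK k f A R b₀)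
    (fun j hj _ _ h => hf j hj (add_right_cancel h))
    (fun j hj u w => by rw [add_sub_add_right_eq_sub]; exact hA j hj u w)
    (K1_WK_stable hc) (K1_WK_comm hA hc) x hl hp h1 h2

theorem card_OK_zero {k : ℕ} {f : ℕ → V → V} {A : ℕ → V →+ V} {R : Set V} {b₀ : V} (x : V) :
    Nat.card (OK k f A R b₀ x 0) = Nat.card (WK k f A R b₀) :=
  Nat.card_congr ((Equiv.subRight x).subtypeEquiv fun _ => Iff.rfl)

/-- There is such a number. -/
theorem period_OK [Finite V] {k : ℕ} {f : ℕ → V → V} {A : ℕ → V →+ V} {R : Set V}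
    {b₀ : V} (x : V) {l : ℕ} (hf : Function.Injective (f l)) :
    ∃ p, 1 ≤ p ∧ p ≤ Nat.card V ∧ (fun u => f l u + b₀)^[p] x ∈ OK k f A R b₀ x l := by
  obtain ⟨P, h1, h2, h3⟩ := K1_exists (g := fun j u => f j u + b₀) (l := l) x
    (fun _ _ h => hf (add_right_cancel h)) (WK k f A R b₀)
  exact ⟨P, h1, h2, h3⟩

end Pool.Agent.LinK
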