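import Pool.Agent.LinU.U6
import Pool.Agent.LinK.K0

/-!
# Package LinK-K2: the sets `iterSets`, `gens`, `WK`, `OK` and the periods are definable
-/

set_option autoImplicit false

namespace Pool.Agent.LinK

open Finset Pool.Agent.Grz Pool.Agent.GAvg Pool.Agent.PTr Pool.Agent.MTr
open Pool.Agent.LPC Pool.Agent.ECD Pool.Agent.LinU

/-- the vectors of a set of codes -/
def vset {n : ℕ} (S : ℕ → (Fin n → ℕ) → Prop) (m N : ℕ) (v : Fin n → ℕ) :
    Set (Fin N → ZMod m) :=
  {u | ∃ z, z < m ^ N ∧ S z v ∧ u = vecOf m N z}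

/-- `iterSets` for codes -/
def cset {n : ℕ} (L : ℕ) (S : ℕ → (Fin n → ℕ) → Prop) (F : ℕ → ℕ → (Fin n → ℕ) → ℕ)
    (v : Fin n → ℕ) : ℕ → ℕ → Prop
  | 0, z => S z v
  | l + 1, z => ∃ i : ℕ, ∃ u, u < L ∧ cset L S F v l u ∧ z = (fun z => F l z v)^[i] u

theorem mem_vset {n : ℕ} {S : ℕ → (Fin n → ℕ) → Prop} {m N : ℕ} {v : Fin n → ℕ} (hm : 0 < m)
    {z : ℕ} (hz : z < m ^ N) : vecOf m N z ∈ vset S m N v ↔ S z v := by
  constructor
  · rintro ⟨z', hz', hS, h⟩
    rwa [vecOf_inj hm hz hz' h]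
  · exact fun h => ⟨z, hz, h, rfl⟩

theorem vset_cset {n k m N : ℕ} {S : ℕ → (Fin n → ℕ) → Prop} {F : ℕ → ℕ → (Fin n → ℕ) → ℕ}
    {v : Fin n → ℕ} {f : ℕ → (Fin N → ZMod m) → (Fin N → ZMod m)}
    (hFb : ∀ j, j < k → ∀ z, z < m ^ N → F j z v < m ^ N)
    (hF : ∀ j, j < k → ∀ z, z < m ^ N → vecOf m N (F j z v) = f j (vecOf m N z)) :
    ∀ l, l ≤ k → vset (fun z v => cset (m ^ N) S F v l z) m N v = iterSets (vset S m N v) f l := by
  intro l
  induction l with
  | zero => intro _; rfl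
  | succ l ih =>
    intro hl
    have h1 := ih (by omega)
    ext u
    constructor
    · rintro ⟨z, hz, ⟨i, u', hu', hc, rfl⟩, rfl⟩
      refine ⟨i, vecOf m N u', ?_, ?_⟩
      · rw [← h1]
        exact ⟨u', hu', hc, rfl⟩
      · exact iter_vecOf (f := fun z => F l z v) hu' (hFb l (by omega)) (hF l (by omega)) i
    · rintro ⟨i, w, hw, rfl⟩
      rw [← h1] at hw
      obtain ⟨u', hu', hc, rfl⟩ := hw
      refine ⟨(fun z => F l z v)^[i] u', iter_bd hu' (hFb l (by omega)) i, ⟨i, u', hu', hc, rfl⟩, ?_⟩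
      exact (iter_vecOf (f := fun z => F l z v) hu' (hFb l (by omega)) (hF l (by omega)) i).symm

theorem cset_lt {n k L : ℕ} {S : ℕ → (Fin n → ℕ) → Prop} {F : ℕ → ℕ → (Fin n → ℕ) → ℕ}
    {v : Fin n → ℕ} (hFb : ∀ j, j < k → ∀ z, z < L → F j z v < L) (hS : ∀ z, S z v → z < L) :
    ∀ l, l ≤ k → ∀ z, cset L S F v l z → z < L := by
  intro l
  induction l with
  | zero => exact fun _ z hz => hS z hz
  | succ l ih =>
    rintro hl z ⟨i, u, hu, hc, rfl⟩
    exact iter_bd hu (hFb l (by omega)) i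

variable {n : ℕ} {m N B : (Fin n → ℕ) → ℕ}

/-- the closure of a definable set of vectors -/
theorem closure_delta (hm : DFun n m) (hN : DFun n N) (hB : DFun n B) (h2 : ∀ v, 2 ≤ m v)
    (hmN : ∀ v, m v ^ N v ≤ B v) {S : ℕ → (Fin n → ℕ) → Prop}
    (hS : Delta0 (n + 1) (fun w => S (w 0) (fun i => w i.succ))) :
    Delta0 (n + 1) (fun w => vecOf (m fun i => w i.succ) (N fun i => w i.succ) (w 0) ∈
      AddSubgroup.closure (vset S (m fun i => w i.succ) (N fun i => w i.succ)
        (fun i => w i.succ))) := by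
  have h0 : ∀ v, 0 < m v := fun v => lt_of_lt_of_le (by norm_num) (h2 v)
  have hL : DFun n (fun v => m v ^ N v) := dfun_powLe hm hN hB hmN
  obtain ⟨Ann, hAnn⟩ : ∃ Ann : ℕ → (Fin n → ℕ) → Prop, Ann = fun s v =>
      ∀ a, a ≤ m v ^ N v → a < m v ^ N v → S a v → dotc (m v) (N v) s a = 0 := ⟨_, rfl⟩
  have hd := dotc_def (n := n + 1 + 1) hm.weak.weak hN.weak.weak hB.weak.weak
    (a := fun w => w (Fin.succ 0)) (DFun.proj _) (b := fun w => w 0) (DFun.proj _)
    (fun w => h2 _) fun w => hmN _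
  have hS2 : Delta0 (n + 1 + 1) (fun w => S (w 0) (fun i => w i.succ.succ)) :=
    hS.rename (n := n + 1 + 1) (Fin.cons 0 fun i => i.succ.succ)
  have hAd : Delta0 (n + 1) (fun w => Ann (w 0) (fun i => w i.succ)) := by
    rw [hAnn]
    exact Delta0.ballFun (n := n + 1)
      (b := fun w => m (fun i => w i.succ) ^ N (fun i => w i.succ)) hL.weak
      (P := fun a w => a < m (fun i => w i.succ) ^ N (fun i => w i.succ) →
        S a (fun i => w i.succ) →
        dotc (m fun i => w i.succ) (N fun i => w i.succ) (w 0) a = 0)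
      ((Delta0.ltFun (DFun.proj 0) hL.weak.weak).imp (hS2.imp (Delta0.eqFun hd (DFun.const 0))))
  have hAd2 : Delta0 (n + 1 + 1) (fun w => Ann (w 0) (fun i => w i.succ.succ)) :=
    hAd.rename (n := n + 1 + 1) (Fin.cons 0 fun i => i.succ.succ)
  have hdz := dotc_def (n := n + 1 + 1) hm.weak.weak hN.weak.weak hB.weak.weak
    (a := fun w => w 0) (DFun.proj _) (b := fun w => w (Fin.succ 0)) (DFun.proj _)
    (fun w => h2 _) fun w => hmN _
  have hfin := Delta0.ballFun (n := n + 1)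
    (b := fun w => m (fun i => w i.succ) ^ N (fun i => w i.succ)) hL.weak
    (P := fun s w => s < m (fun i => w i.succ) ^ N (fun i => w i.succ) →
      Ann s (fun i => w i.succ) → dotc (m fun i => w i.succ) (N fun i => w i.succ) s (w 0) = 0)
    ((Delta0.ltFun (DFun.proj 0) hL.weak.weak).imp (hAd2.imp
      (Delta0.eqFun hdz (DFun.const 0))))
  refine hfin.of_iff fun w => ?_
  set v : Fin n → ℕ := fun i => w i.succ with hv
  rw [mem_closure_dot (h0 v)]
  have hA1 : ∀ s, Ann s v ↔ ∀ a ∈ vset S (m v) (N v) v, ∑ i, vecOf (m v) (N v) s i * a i = 0 := by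
    intro s
    rw [hAnn]
    constructor
    · rintro h a ⟨z, hz, hSz, rfl⟩
      rw [← dotc_iff]
      exact h z hz.le hz hSz
    · intro h a _ ha hSa
      rw [dotc_iff]
      exact h _ ⟨a, ha, hSa, rfl⟩
  constructor
  · intro h s _ _ hs
    rw [dotc_iff]
    exact h _ ((hA1 s).1 hs)
  · intro h s hs
    obtain ⟨s', hs', hs2⟩ := A7.exists_code (h2 v) (N v) s
    have hs3 : vecOf (m v) (N v) s' = s := hs2
    rw [← hs3] at hs ⊢
    have h3 := h s' hs'.le hs' ((hA1 s').2 hs)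
    rwa [dotc_iff] at h3

/-- the iterates of a code map at a code -/
def Itr (L : ℕ) (F : ℕ → ℕ) (i u : ℕ) : ℕ := F^[i] (if u < L then u else 0)

theorem cset_delta {k : ℕ} {L : (Fin n → ℕ) → ℕ} (hL : DFun n L)
    {S : ℕ → (Fin n → ℕ) → Prop} (hS : Delta0 (n + 1) (fun w => S (w 0) (fun i => w i.succ)))
    {F : ℕ → ℕ → (Fin n → ℕ) → ℕ} (hFb : ∀ j, j < k → ∀ v z, z < L v → F j z v < L v)
    (hF : ∀ j, j < k → DFun (n + 1 + 1) (fun w => Itr (L fun i => w i.succ.succ)
      (fun z => F j z fun i => w i.succ.succ) (w 0) (w (Fin.succ 0)))) :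
    ∀ l, l ≤ k → Delta0 (n + 1) (fun w => cset (L fun i => w i.succ) S F (fun i => w i.succ) l
      (w 0)) := by
  intro l
  induction l with
  | zero => exact fun _ => hS
  | succ l ih =>
    intro hl
    have h1 := ih (by omega)
    -- variables `(u, i, z, v)`
    have hI := (hF l (by omega)).comp (n := n + 1 + 1 + 1) (h := Fin.cons
      (fun w => w (Fin.succ 0)) (Fin.cons (fun w => w 0) fun i w => w i.succ.succ.succ))
      (fun i => by
        refine Fin.cases ?_ (fun i => ?_) i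
        · exact DFun.proj _
        refine Fin.cases ?_ (fun i => ?_) i
        · exact DFun.proj _
        · exact DFun.proj _)
    have hc : Delta0 (n + 1 + 1 + 1) (fun w => cset (L fun i => w i.succ.succ.succ) S F
        (fun i => w i.succ.succ.succ) l (w 0)) :=
      h1.rename (n := n + 1 + 1 + 1) (Fin.cons 0 fun i => i.succ.succ.succ)
    have hz := Delta0.eqFun (DFun.proj (n := n + 1 + 1 + 1) (Fin.succ (Fin.succ 0))) hI
    have q1 := Delta0.bexFun (n := n + 1 + 1) (b := fun w => L fun i => w i.succ.succ)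
      hL.weak.weak (P := fun u w => u < (L fun i => w i.succ.succ) ∧
        cset (L fun i => w i.succ.succ) S F (fun i => w i.succ.succ) l u ∧
        w (Fin.succ 0) = Itr (L fun i => w i.succ.succ) (fun z => F l z fun i => w i.succ.succ)
          (w 0) u)
      ((Delta0.ltFun (DFun.proj 0) hL.weak.weak.weak).and (hc.and hz))
    have q2 := Delta0.bexFun (n := n + 1) (b := fun w => L fun i => w i.succ)
      hL.weak (P := fun i w => ∃ u, u ≤ (L fun i => w i.succ) ∧ (u < (L fun i => w i.succ) ∧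
        cset (L fun i => w i.succ) S F (fun i => w i.succ) l u ∧
        w 0 = Itr (L fun i => w i.succ) (fun z => F l z fun i => w i.succ) i u)) q1
    refine q2.of_iff fun w => ?_
    set v : Fin n → ℕ := fun i => w i.succ with hv
    constructor
    · rintro ⟨i, u, hu, hcu, h⟩
      obtain ⟨j, hj, hj'⟩ := exists_iter_le' (f := fun z => F l z v) hu
        (hFb l (by omega) v) i
      refine ⟨j, hj, u, hu.le, hu, hcu, ?_⟩
      rw [Itr, if_pos hu, h]
      exact hj'.symm
    · rintro ⟨i, _, u, _, hu, hcu, h⟩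
      rw [Itr, if_pos hu] at h
      exact ⟨i, u, hu, hcu, h⟩

/-- the iterates of an affine map with a good matrix are definable, as a function of the number of
steps and the start -/
theorem itr_dfun {P : ∀ m N : ℕ, ℕ → Matrix (Fin N) (Fin N) (ZMod m) → Prop} (hI : GoodIter P)
    (hm : DFun n m) (hN : DFun n N) (hB : DFun n B) (hm0 : ∀ v, 0 < m v)
    (hmN : ∀ v, m v ^ N v ≤ B v) {F : ℕ → (Fin n → ℕ) → ℕ}
    (hF : DFun (n + 1) (fun w => F (w 0) (fun i => w i.succ)))
    (hFb : ∀ v z, z < m v ^ N v → F z v < m v ^ N v)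
    (haff : ∀ v, ∃ (A : Matrix (Fin (N v)) (Fin (N v)) (ZMod (m v))) (b : Fin (N v) → ZMod (m v)),
      P (m v) (N v) (B v) A ∧
      ∀ z, z < m v ^ N v → vecOf (m v) (N v) (F z v) = A.mulVec (vecOf (m v) (N v) z) + b) :
    DFun (n + 1 + 1) (fun w => Itr (m (fun i => w i.succ.succ) ^ N (fun i => w i.succ.succ))
      (fun z => F z fun i => w i.succ.succ) (w 0) (w (Fin.succ 0))) := by
  have hL : DFun n (fun v => m v ^ N v) := dfun_powLe hm hN hB hmN
  have hx : DFun (n + 1 + 1) (fun w => if w (Fin.succ 0) < m (fun i => w i.succ.succ) ^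
      N (fun i => w i.succ.succ) then w (Fin.succ 0) else 0) :=
    DFun.ite (Delta0.ltFun (DFun.proj _) hL.weak.weak) (DFun.proj _) (DFun.const 0)
  refine hI (n + 1 + 1) _ _ _ _ (fun w => w 0) (fun z w => F z fun i => w i.succ.succ)
    hm.weak.weak hN.weak.weak hB.weak.weak hx (DFun.proj _)
    (DFun.app hF (DFun.proj 0) fun i => DFun.proj _) (fun w => hm0 _) (fun w => hmN _)
    (fun w => hFb _) (fun w => haff _) fun w => ?_
  split_ifs with h
  · exact h
  · exact pow_pos (hm0 _) _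

end Pool.Agent.LinK
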